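import Pool.Agent.Results.MP_dd84fd_nt.ChenSiftedGoldbach
import Pool.Agent.KS6_51.AP2

/-!
# Chen's theorem for every even number and narrow progressions

For EVERY large even `N` (more generally for every integer `N` in `[3 X, C X]` without local obstruction) let `G` be the
set of the PRIMES `q` for which `N - q` is a prime or the product of TWO primes, all of them at least `X ^ (1 / 9)`, with
`X ≤ N - q ≤ 2 X`, and which avoid up to `m` ARBITRARY residue classes modulo every prime `p < X ^ δ`. Let `k` be given.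

* EVERY subset `S` of `G` with at least `η |G|` elements contains the right order of progressions of length `k` with
  differences at most `D`, for all `D` between a power of `log X` and `X`; and all elements of `S` with at most
  `η |G|` exceptions are terms of progressions of `k` elements of `S` with differences at most `log ^ B X`.
* The number of the progressions of length `k` in `G` with differences at most `D` has the expected order of magnitude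
  `X D V ^ k`, where `V` is the expected density, including the dependence on the prime factors of `N`.

Here `B` and the constants do not depend on `N` and the classes.

Proof. The lower bound for `|G|` is the theorem `Pool.Agent.Results.MP_dd84fd_nt.ChenSiftedGoldbach.part1` (Chen's
theorem inside sifted sets). The counting of progressions in dense subsets of sifted sets, with narrow differences, is
the theorem of the starting files (`Pool.Agent.Y843.AC`, `Pool.Agent.Y843.HG`), the transference principle.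
-/

set_option autoImplicit false

namespace Pool.Agent.Results.MP_dd84fd_nt.ChenProgressions

open Finset Filter Pool.Agent.KS6_51
open Pool.Agent.Y843.AC (APs)
open Pool.Agent.Y843.HG (InAP Iso)

open Classical in
/-- The number of the residues `d ≠ 0` modulo `p` which are forbidden for the prime `q`: those of `E p`, and the
residue of `N`. -/
noncomputable def bad (N : ℕ) (E : ℕ → Finset ℕ) (p : ℕ) : ℕ :=
  ((range p).filter (fun d => d ≠ 0 ∧ (d ∈ E p ∨ d = N % p))).card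

/-- The expected density `(1 / log X) ∏ (1 - bad p / (p - 1))` over the primes `z < p ≤ X`. -/
noncomputable def V (z X N : ℕ) (E : ℕ → Finset ℕ) : ℝ :=
  (∏ p ∈ (Ioc z X).filter Nat.Prime, (1 - (bad N E p : ℝ) / ((p : ℝ) - 1))) / Real.log X

/-- `k` is the product of at most `s` primes, all of them at least `y`. -/
def Almost (s : ℕ) (y : ℝ) (k : ℕ) : Prop :=
  k.primeFactorsList.length ≤ s ∧ ∀ p : ℕ, p.Prime → p ∣ k → y ≤ p

/-- `N - q` is in the window `[X, 2 X]` and is the product of at most two primes, both at least `X ^ (1 / 9)`, and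
`q` is a prime. -/
def Chen (X N q : ℕ) : Prop :=
  q.Prime ∧ (q + X ≤ N ∧ N ≤ q + 2 * X) ∧ Almost 2 ((X : ℝ) ^ (1 / 9 : ℝ)) (N - q)

/-- The primes `q` as above which avoid the classes `E p` modulo all primes `p < X ^ δ`. -/
def G (X N : ℕ) (δ : ℝ) (E : ℕ → Finset ℕ) : Set ℕ :=
  {q : ℕ | Chen X N q ∧ ∀ p : ℕ, p.Prime → (p : ℝ) < (X : ℝ) ^ δ → q % p ∉ E p}

/-- The number of the pairs `(a, d)` with `1 ≤ d ≤ D` such that `a, a + d, ..., a + (k - 1) d` are in `S`. -/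
noncomputable def AP (k D : ℕ) (S : Set ℕ) : ℕ :=
  {x : ℕ × ℕ | (1 ≤ x.2 ∧ x.2 ≤ D) ∧ ∀ j < k, x.1 + j * x.2 ∈ S}.ncard

/-- `q` is a term of a progression of `k` elements of `S` with a difference in `[1, D]`. -/
def OnAP (k : ℕ) (D : ℝ) (S : Set ℕ) (q : ℕ) : Prop :=
  ∃ a d : ℕ, 1 ≤ d ∧ (d : ℝ) ≤ D ∧ (∀ j < k, a + j * d ∈ S) ∧ ∃ j < k, q = a + j * d

theorem G_eq (X N : ℕ) (δ : ℝ) (E : ℕ → Finset ℕ) : G X N δ E =
    {q : ℕ | ChenSiftedGoldbach.Chen X N q ∧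
      ∀ p : ℕ, p.Prime → (p : ℝ) < (X : ℝ) ^ δ → q % p ∉ E p} := rfl

theorem bad_eq (N : ℕ) (E : ℕ → Finset ℕ) (p : ℕ) : bad N E p = ChenSiftedGoldbach.bad N E p := rfl

theorem AP_eq {k : ℕ} (hk : 1 ≤ k) (D : ℕ) (S : Finset ℕ) : AP k D (S : Set ℕ) = (APs k D S).card := by
  classical
  unfold AP APs
  rw [← Set.ncard_coe_finset]
  congr 1
  ext x
  simp only [Set.mem_ofPred_eq, mem_coe, mem_filter, mem_product, mem_Icc]
  constructor
  · rintro ⟨h1, h2⟩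
    have h3 := h2 0 (by omega)
    rw [zero_mul, add_zero] at h3
    exact ⟨⟨h3, h1⟩, h2⟩
  · rintro ⟨⟨-, h1⟩, h2⟩
    exact ⟨h1, h2⟩

theorem Iso_eq (k : ℕ) (D : ℝ) (S : Finset ℕ) :
    {q : ℕ | q ∈ (S : Set ℕ) ∧ ¬ OnAP k D (S : Set ℕ) q}.ncard = (Iso k D S).card := by
  classical
  unfold Iso
  rw [← Set.ncard_coe_finset]
  congr 1
  ext x
  simp only [Set.mem_ofPred_eq, mem_coe, mem_filter]
  rfl

open Classical in
/-- the classes -/
noncomputable def Z (N : ℕ) (E : ℕ → Finset ℕ) (p : ℕ) : Finset ℕ :=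
  (range p).filter (fun d => d = 0 ∨ d ∈ E p ∨ d = N % p)

theorem card_Z {N : ℕ} {E : ℕ → Finset ℕ} {p : ℕ} (hp : 0 < p) : (Z N E p).card = bad N E p + 1 := by
  classical
  unfold Z bad
  have h0 : (0 : ℕ) ∉ (range p).filter (fun d => d ≠ 0 ∧ (d ∈ E p ∨ d = N % p)) := by
    rw [mem_filter]
    exact fun h => h.2.1 rfl
  rw [← card_cons h0]
  congr 1
  ext d
  rw [mem_filter, mem_cons, mem_filter, mem_range]
  constructor
  · rintro ⟨h1, h2⟩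
    by_cases h3 : d = 0
    · exact Or.inl h3
    · exact Or.inr ⟨h1, h3, h2.resolve_left h3⟩
  · rintro (h | ⟨h1, -, h2⟩)
    · rw [h]
      exact ⟨hp, Or.inl rfl⟩
    · exact ⟨h1, Or.inr h2⟩

theorem dn_eq (z X N : ℕ) (E : ℕ → Finset ℕ) : AP.dn z X (Z N E) = V z X N E := by
  unfold AP.dn AP.WW V
  congr 1
  apply prod_congr rfl
  intro p hp
  rw [mem_filter] at hp
  rw [card_Z hp.2.pos]
  push_cast
  ring_nf

theorem cl {z m N : ℕ} {E : ℕ → Finset ℕ} (hz : m + 2 ≤ z)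
    (hE : ∀ p : ℕ, p.Prime → z < p → (E p).card ≤ m)
    (hA : ∀ p : ℕ, p.Prime → p ≤ z → ∃ a : ℕ, a % p ∉ E p ∧ ¬ p ∣ a ∧ ¬ a ≡ N [MOD p]) :
    AP.Cl z (m + 2) (Z N E) := by
  classical
  have hb : ∀ p : ℕ, p.Prime → z < p → (Z N E p).card ≤ m + 2 := by
    intro p hp hzp
    rw [card_Z hp.pos, bad_eq]
    have := ChenSiftedGoldbach.bad_le (N := N) (hE p hp hzp)
    omega
  refine ⟨fun p hp => ⟨?_, ?_⟩, fun p hp hzp => ⟨?_, hb p hp hzp⟩⟩
  · rcases le_or_gt p z with h | h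
    · obtain ⟨a, h1, h2, h3⟩ := hA p hp h
      have h4 : a % p ∉ Z N E p := by
        unfold Z
        rw [mem_filter]
        rintro ⟨-, h5 | h5 | h5⟩
        · exact h2 (Nat.dvd_of_mod_eq_zero h5)
        · exact h1 h5
        · exact h3 h5
      have h5 : Z N E p ⊂ range p := by
        rw [ssubset_iff_of_subset]
        · exact ⟨a % p, mem_range.2 (Nat.mod_lt _ hp.pos), h4⟩
        · unfold Z
          exact filter_subset _ _
      have h6 := card_lt_card h5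
      rwa [card_range] at h6
    · have := hb p hp h
      omega
  · intro c hc
    unfold Z at hc
    rw [mem_filter, mem_range] at hc
    exact hc.1
  · rw [card_Z hp.pos]
    omega

theorem finG (X N : ℕ) (δ : ℝ) (E : ℕ → Finset ℕ) : (G X N δ E).Finite :=
  (Set.finite_Iic N).subset fun q hq => by
    have := hq.1.2.1.1
    simp only [Set.mem_Iic]
    omega

/-- the elements of `G` avoid the classes -/
theorem avd {δ κ : ℝ} (hκ : 0 < κ) (h1 : 2 * κ ≤ δ) (h2 : 2 * κ ≤ 1 / 9) : ∃ X₀ : ℕ, 1 ≤ X₀ ∧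
    ∀ X N : ℕ, X₀ ≤ X → 3 * X ≤ N → ∀ E : ℕ → Finset ℕ, ∀ S : Finset ℕ, (S : Set ℕ) ⊆ G X N δ E →
    S ⊆ Icc (N - 2 * X) (N - 2 * X + X) ∧ AP.Avd κ X (Z N E) S := by
  have ht : Tendsto (fun X : ℕ => ((X : ℝ)) ^ κ) atTop atTop :=
    (tendsto_rpow_atTop hκ).comp tendsto_natCast_atTop_atTop
  obtain ⟨X₁, hX₁⟩ := (eventually_atTop.1 (ht.eventually_ge_atTop 3))
  refine ⟨max X₁ 2, by omega, ?_⟩
  intro X N hX hN E S hS
  rw [max_le_iff] at hX
  have h3 := hX₁ X hX.1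
  have hX2 : (2 : ℝ) ≤ X := by exact_mod_cast hX.2
  have hX0 : (0 : ℝ) < X := by linarith
  have hX1 : (1 : ℝ) ≤ X := by linarith
  have hlt : ((X + 1 : ℕ) : ℝ) ^ κ < (X : ℝ) ^ (2 * κ) := by
    have h4 : ((X + 1 : ℕ) : ℝ) ^ κ ≤ 2 * (X : ℝ) ^ κ := by
      calc ((X + 1 : ℕ) : ℝ) ^ κ ≤ (2 * X) ^ κ := by
            apply Real.rpow_le_rpow (by positivity) _ hκ.le
            push_cast
            linarith
        _ = 2 ^ κ * (X : ℝ) ^ κ := Real.mul_rpow (by norm_num) hX0.le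
        _ ≤ 2 * (X : ℝ) ^ κ := by
            apply mul_le_mul_of_nonneg_right _ (by positivity)
            calc (2 : ℝ) ^ κ ≤ 2 ^ (1 : ℝ) :=
                  Real.rpow_le_rpow_of_exponent_le (by norm_num) (by linarith)
              _ = 2 := Real.rpow_one _
    have h5 : (X : ℝ) ^ (2 * κ) = (X : ℝ) ^ κ * (X : ℝ) ^ κ := by
      rw [← Real.rpow_add hX0]; ring_nf
    rw [h5]
    nlinarith
  refine ⟨?_, ?_⟩
  · intro q hq
    have h4 := (hS (mem_coe.2 hq)).1.2.1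
    rw [mem_Icc]
    omega
  · intro q hq p hp hpX hmem
    obtain ⟨⟨hpr, hw, hal⟩, hsf⟩ := hS (mem_coe.2 hq)
    have hpd : (p : ℝ) < (X : ℝ) ^ δ := lt_of_lt_of_le (lt_of_le_of_lt hpX hlt)
      (Real.rpow_le_rpow_of_exponent_le hX1 h1)
    have hp9 : (p : ℝ) < (X : ℝ) ^ (1 / 9 : ℝ) := lt_of_lt_of_le (lt_of_le_of_lt hpX hlt)
      (Real.rpow_le_rpow_of_exponent_le hX1 h2)
    unfold Z at hmem
    rw [mem_filter] at hmem
    rcases hmem.2 with h4 | h4 | h4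
    · have h5 : p = q := (Nat.prime_dvd_prime_iff_eq hp hpr).1 (Nat.dvd_of_mod_eq_zero h4)
      have h6 : (X : ℝ) ^ (1 / 9 : ℝ) ≤ X := by
        calc (X : ℝ) ^ (1 / 9 : ℝ) ≤ (X : ℝ) ^ (1 : ℝ) :=
              Real.rpow_le_rpow_of_exponent_le hX1 (by norm_num)
          _ = X := Real.rpow_one _
      have h7 : (q : ℝ) < X := by rw [← h5]; linarith
      have h8 : q < X := by exact_mod_cast h7
      omega
    · exact hsf p hp hpd h4
    · have h5 : p ∣ N - q := (Nat.modEq_iff_dvd' (by omega)).1 h4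
      have h6 := hal.2 p hp h5
      linarith

/-- **Part 1.** -/
theorem part1 (m C : ℕ) (hC : 1 ≤ C) : ∃ z₀ : ℕ, ∀ z : ℕ, z₀ ≤ z →
    ∃ δ c₁ : ℝ, 0 < δ ∧ 0 < c₁ ∧ ∀ k : ℕ, 1 ≤ k → ∃ c₂ : ℝ, 0 < c₂ ∧ ∀ η : ℝ, 0 < η →
    ∃ c₃ : ℝ, 0 < c₃ ∧ ∃ B X₀ : ℕ, ∀ X N : ℕ, X₀ ≤ X → 3 * X ≤ N → N ≤ C * X →
    ∀ E : ℕ → Finset ℕ, (∀ p : ℕ, p.Prime → z < p → (E p).card ≤ m) →
    (∀ p : ℕ, p.Prime → p ≤ z → ∃ a : ℕ, a % p ∉ E p ∧ ¬ p ∣ a ∧ ¬ a ≡ N [MOD p]) →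
    c₁ * (X * V z X N E) ≤ (G X N δ E).ncard ∧
    (∀ D : ℕ, Real.log X ^ B ≤ D → (AP k D (G X N δ E) : ℝ) ≤ c₂ * (X * D * V z X N E ^ k)) ∧
    ∀ S : Set ℕ, S ⊆ G X N δ E →
      ({q : ℕ | q ∈ S ∧ ¬ OnAP k (Real.log X ^ B) S q}.ncard : ℝ) ≤ η * (G X N δ E).ncard ∧
      (η * (G X N δ E).ncard ≤ S.ncard → ∀ D : ℕ, Real.log X ^ B ≤ D → D ≤ X →
        c₃ * (X * D * V z X N E ^ k) ≤ AP k D S) := by
  classical
  obtain ⟨z₀, hz₀⟩ := ChenSiftedGoldbach.part1 m C hC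
  refine ⟨max z₀ (m + 2), fun z hz => ?_⟩
  rw [max_le_iff] at hz
  obtain ⟨δ, c, hδ, hc, X₀, h⟩ := hz₀ z hz.1
  obtain ⟨κ, hκd⟩ : ∃ κ : ℝ, κ = min δ (1 / 9) / 2 := ⟨_, rfl⟩
  have hκ : 0 < κ := by
    rw [hκd]
    have : (0 : ℝ) < min δ (1 / 9) := lt_min hδ (by norm_num)
    linarith
  have hκ1 : 2 * κ ≤ δ := by
    rw [hκd]
    have := min_le_left δ (1 / 9)
    linarith
  have hκ2 : 2 * κ ≤ 1 / 9 := by
    rw [hκd]
    have := min_le_right δ (1 / 9)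
    linarith
  obtain ⟨X₁, hX₁, hav⟩ := avd hκ hκ1 hκ2
  refine ⟨δ, c, hδ, hc, fun k hk => ?_⟩
  obtain ⟨c₂, hc₂, B₂, X₂, hup⟩ := AP.upper z (m + 2) k hk κ hκ (by linarith)
  refine ⟨c₂, hc₂, fun η hη => ?_⟩
  obtain ⟨c₃, hc₃, B₃, X₃, hlo⟩ := AP.lower z (m + 2) k hk κ hκ (by linarith) (η * c) (by positivity)
  obtain ⟨B₄, X₄, hiso⟩ := AP.isol z (m + 2) k hk κ hκ (by linarith) (η * c) (by positivity)
  refine ⟨c₃, hc₃, max B₂ (max B₃ B₄), max (max X₀ X₁) (max (max X₂ X₃) (max X₄ 3)), ?_⟩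
  intro X N hX hN3 hNC E hE hA
  simp only [max_le_iff] at hX
  obtain ⟨⟨hX0, hX1⟩, ⟨hX2, hX3⟩, hX4, hX5⟩ := hX
  have hcl := cl (N := N) hz.2 hE hA
  have hdn := dn_eq z X N E
  have h1 := h X N hX0 hN3 hNC E hE hA
  rw [← G_eq] at h1
  have hV : X / Real.log X * ∏ p ∈ (Ioc z X).filter Nat.Prime,
      (1 - (ChenSiftedGoldbach.bad N E p : ℝ) / ((p : ℝ) - 1)) = X * V z X N E := by
    unfold V
    simp only [bad_eq]
    ring
  rw [hV] at h1
  have hlog : 1 ≤ Real.log X := by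
    have h3 : (3 : ℝ) ≤ X := by exact_mod_cast hX5
    rw [Real.le_log_iff_exp_le (by linarith)]
    have := Real.exp_one_lt_d9
    linarith
  have hB : ∀ b : ℕ, b ≤ max B₂ (max B₃ B₄) → Real.log X ^ b ≤ Real.log X ^ (max B₂ (max B₃ B₄)) :=
    fun b hb => pow_le_pow_right₀ hlog hb
  have hAA : 1 ≤ N - 2 * X := by omega
  -- subsets of `G` as finite sets
  have hfin : ∀ S : Set ℕ, S ⊆ G X N δ E → ∃ T : Finset ℕ, (T : Set ℕ) = S := by
    intro S hS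
    exact ⟨((finG X N δ E).subset hS).toFinset, Set.Finite.coe_toFinset _⟩
  refine ⟨h1, ?_, ?_⟩
  · intro D hD
    obtain ⟨T, hT⟩ := hfin _ (Set.Subset.refl _)
    obtain ⟨h2, h3⟩ := hav X N hX1 hN3 E T hT.subset
    have h4 := hup X (N - 2 * X) D hX2 hAA ((hB B₂ (le_max_left _ _)).trans hD) (Z N E) hcl T h2 h3
    rw [hdn] at h4
    rw [← hT, AP_eq hk]
    exact h4
  · intro S hS
    obtain ⟨T, hT⟩ := hfin S hS
    obtain ⟨h2, h3⟩ := hav X N hX1 hN3 E T (by rw [hT]; exact hS)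
    constructor
    · rw [← hT]
      have h4 := hiso X (N - 2 * X) hX4 hAA (Z N E) hcl T h2 h3
      rw [hdn] at h4
      have h5 : ({q : ℕ | q ∈ (T : Set ℕ) ∧ ¬ OnAP k (Real.log X ^ (max B₂ (max B₃ B₄))) (T : Set ℕ) q}.ncard : ℝ) ≤
          (Iso k (Real.log X ^ B₄) T).card := by
        rw [← Iso_eq]
        have h6 : {q : ℕ | q ∈ (T : Set ℕ) ∧ ¬ OnAP k (Real.log X ^ (max B₂ (max B₃ B₄))) (T : Set ℕ) q} ⊆
            {q : ℕ | q ∈ (T : Set ℕ) ∧ ¬ OnAP k (Real.log X ^ B₄) (T : Set ℕ) q} := by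
          rintro q ⟨h7, h8⟩
          refine ⟨h7, fun h9 => h8 ?_⟩
          obtain ⟨a, d, g1, g2, g3, g4⟩ := h9
          exact ⟨a, d, g1, g2.trans (hB B₄ ((le_max_right _ _).trans (le_max_right _ _))), g3, g4⟩
        exact_mod_cast Set.ncard_le_ncard h6 (T.finite_toSet.subset fun q hq => hq.1)
      refine h5.trans (h4.trans ?_)
      calc η * c * (X * V z X N E) = η * (c * (X * V z X N E)) := by ring
        _ ≤ _ := mul_le_mul_of_nonneg_left h1 hη.le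
    · intro hcard D hD hDX
      have h4 := hlo X (N - 2 * X) D hX3 hAA
        ((hB B₃ ((le_max_left _ _).trans (le_max_right _ _))).trans hD) hDX (Z N E) hcl T h2 h3 (by
          rw [hdn]
          rw [← hT, Set.ncard_coe_finset] at hcard
          refine le_trans ?_ hcard
          calc η * c * (X * V z X N E) = η * (c * (X * V z X N E)) := by ring
            _ ≤ _ := mul_le_mul_of_nonneg_left h1 hη.le)
      rw [hdn] at h4
      rw [← hT, AP_eq hk]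
      exact h4

theorem AP_mono {k D : ℕ} (hk : 1 ≤ k) {S T : Set ℕ} (h : S ⊆ T) (hT : T.Finite) : AP k D S ≤ AP k D T := by
  classical
  unfold AP
  apply Set.ncard_le_ncard
  · rintro x ⟨h1, h2⟩
    exact ⟨h1, fun j hj => h (h2 j hj)⟩
  · apply (hT.prod (Set.finite_Icc 1 D)).subset
    rintro x ⟨h1, h2⟩
    have h3 := h2 0 (by omega)
    rw [zero_mul, add_zero] at h3
    exact ⟨h3, h1⟩

/-- **Part 2.** -/
theorem part2 (C : ℕ) (hC : 1 ≤ C) (H : Finset ℕ) :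
    ∃ r : ℕ, 1 ≤ r ∧ ∀ k : ℕ, 1 ≤ k → ∃ c : ℝ, 0 < c ∧ ∃ B X₀ : ℕ, ∀ X N : ℕ, X₀ ≤ X →
    3 * X ≤ N → N ≤ C * X →
    (∀ p : ℕ, p.Prime → p ≤ H.card + 2 →
      ∃ a : ℕ, ¬ p ∣ a ∧ ¬ a ≡ N [MOD p] ∧ ∀ h ∈ H, ¬ p ∣ a + h) →
    ∀ D : ℕ, Real.log X ^ B ≤ D → D ≤ X → c * (X * D / Real.log X ^ ((H.card + 2) * k)) ≤
      AP k D {q : ℕ | Chen X N q ∧ ∀ h ∈ H, Almost r ((X : ℝ) ^ (1 / (r : ℝ))) (q + h)} := by
  classical
  obtain ⟨z₀, hz₀⟩ := part1 H.card C hC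
  obtain ⟨c₁, hc₁, hprod⟩ := ChenSiftedGoldbach.prod_lower H.card
  obtain ⟨δ, c, hδ, hc, h⟩ := hz₀ (max z₀ (2 * (H.card + 1) + 2)) (le_max_left _ _)
  obtain ⟨z, hz⟩ : ∃ z, z = max z₀ (2 * (H.card + 1) + 2) := ⟨_, rfl⟩
  rw [← hz] at h
  have hzH : 2 * (H.card + 1) + 2 ≤ z := by rw [hz]; exact le_max_right _ _
  obtain ⟨r, hr⟩ : ∃ r : ℕ, r = max (⌈2 / δ⌉₊) 1 := ⟨_, rfl⟩
  have hr1 : 1 ≤ r := by rw [hr]; exact le_max_right _ _
  have hrδ : 2 / δ ≤ r := by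
    rw [hr]
    exact (Nat.le_ceil _).trans (by exact_mod_cast le_max_left _ _)
  refine ⟨r, hr1, fun k hk => ?_⟩
  obtain ⟨c₂, hc₂, h⟩ := h k hk
  obtain ⟨c₃, hc₃, B, X₀, h⟩ := h 1 one_pos
  refine ⟨c₃ * c₁ ^ k, by positivity, B, max X₀ (max 3 (C + H.sup id + 1)), ?_⟩
  intro X N hX hN3 hNC hloc D hD hDX
  rw [max_le_iff, max_le_iff] at hX
  obtain ⟨hX0, hX3, hXC⟩ := hX
  have hXr : (1 : ℝ) ≤ X := by exact_mod_cast (by omega : 1 ≤ X)
  have hcard : ∀ p : ℕ, p.Prime → z < p → (CH.zer H p).card ≤ H.card := fun p hp _ =>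
    CH.card_zer H hp.pos
  have key := (h X N hX0 hN3 hNC (CH.zer H) hcard (by
    intro p hp hpz
    rcases le_or_gt p (H.card + 2) with hpH | hpH
    · obtain ⟨a, h1, h2, h3⟩ := hloc p hp hpH
      refine ⟨a, ?_, h1, h2⟩
      rw [CH.mod_mem_zer hp.pos]
      rintro ⟨s, hs, hd⟩
      exact h3 s hs hd
    · exact ChenSiftedGoldbach.exists_free hp.pos _ (CH.card_zer H hp.pos) N hpH)).2.2 _ (Set.Subset.refl _)
  have key2 := key.2 (by rw [one_mul]) D hD hDX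
  have hp1 := hprod z X hzH hX3 N (CH.zer H) hcard
  have hlog : 0 < Real.log X := Real.log_pos (by exact_mod_cast (by omega : 1 < X))
  have hV : c₁ / Real.log X ^ (H.card + 2) ≤ V z X N (CH.zer H) := by
    unfold V
    simp only [bad_eq]
    rw [pow_succ (Real.log (X : ℝ)) (H.card + 1), ← div_div]
    exact div_le_div_of_nonneg_right hp1 hlog.le
  have e1 : c₃ * c₁ ^ k * (X * D / Real.log X ^ ((H.card + 2) * k)) =
      c₃ * (X * D * (c₁ / Real.log X ^ (H.card + 2)) ^ k) := by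
    rw [div_pow, pow_mul]
    ring
  rw [e1]
  have h2 : c₃ * (X * D * (c₁ / Real.log X ^ (H.card + 2)) ^ k) ≤
      c₃ * (X * D * V z X N (CH.zer H) ^ k) := by
    have h3 : 0 ≤ c₁ / Real.log X ^ (H.card + 2) := by positivity
    have h4 := pow_le_pow_left₀ h3 hV k
    gcongr
  refine h2.trans (key2.trans ?_)
  have hfin : ({q : ℕ | Chen X N q ∧
      ∀ h ∈ H, Almost r ((X : ℝ) ^ (1 / (r : ℝ))) (q + h)}).Finite :=
    (Set.finite_Iic N).subset fun q hq => by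
      have := hq.1.2.1.1
      simp only [Set.mem_Iic]
      omega
  have hdr : (X : ℝ) ^ (1 / (r : ℝ)) ≤ (X : ℝ) ^ δ := by
    apply Real.rpow_le_rpow_of_exponent_le hXr
    rw [div_le_iff₀ hδ] at hrδ
    rw [div_le_iff₀ (by exact_mod_cast hr1)]
    linarith
  have hsub : G X N δ (CH.zer H) ⊆
      {q : ℕ | Chen X N q ∧ ∀ h ∈ H, Almost r ((X : ℝ) ^ (1 / (r : ℝ))) (q + h)} := by
    rintro q ⟨h3, h4⟩
    refine ⟨h3, fun s hs => ?_⟩
    have hpf : ∀ p : ℕ, p.Prime → p ∣ q + s → (X : ℝ) ^ δ ≤ p := by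
      intro p hp hd
      by_contra hlt
      push Not at hlt
      apply h4 p hp hlt
      rw [CH.mod_mem_zer hp.pos]
      exact ⟨s, hs, hd⟩
    have hsX : s ≤ H.sup id := le_sup (f := id) hs
    have hq0 := h3.1.pos
    have hqN : q ≤ N := by
      have := h3.2.1.1
      omega
    refine ⟨CH.length_le' hδ (by omega) (by omega) ?_ hrδ hpf, fun p hp hd => hdr.trans (hpf p hp hd)⟩
    have h5 : q + s ≤ C * X + H.sup id := by omega
    have h6 : C * X + H.sup id ≤ X ^ 2 := by nlinarith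
    omega
  exact_mod_cast AP_mono hk hsub hfin

/-- **Part 3: every large even number.** -/
theorem part3 (k : ℕ) (hk : 1 ≤ k) : ∃ c : ℝ, 0 < c ∧ ∃ B N₀ : ℕ, ∀ N : ℕ, N₀ ≤ N → Even N →
    ∀ D : ℕ, Real.log N ^ B ≤ D → 3 * D ≤ N → c * (N * D / Real.log N ^ (2 * k)) ≤
      AP k D {q : ℕ | q < N ∧ q.Prime ∧ Almost 2 ((N : ℝ) ^ (1 / 10 : ℝ)) (N - q)} := by
  classical
  obtain ⟨r, -, h⟩ := part2 4 (by norm_num) ∅
  obtain ⟨c, hc, B, X₀, h⟩ := h k hk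
  have ht : Tendsto (fun N : ℕ => ((N : ℝ)) ^ (1 / 90 : ℝ)) atTop atTop :=
    (tendsto_rpow_atTop (by norm_num)).comp tendsto_natCast_atTop_atTop
  obtain ⟨N₁, hN₁⟩ := (eventually_atTop.1 (ht.eventually_ge_atTop 4))
  refine ⟨c / 4, by positivity, B, max N₁ (3 * X₀ + 36), ?_⟩
  intro N hN hev D hD hDN
  rw [max_le_iff] at hN
  obtain ⟨X, hX⟩ : ∃ X, X = N / 3 := ⟨_, rfl⟩
  have h3X : 3 * X ≤ N := by omega
  have h4X : N ≤ 4 * X := by omega
  have hX0 : X₀ ≤ X := by omega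
  have hX12 : 12 ≤ X := by omega
  have hXr : (12 : ℝ) ≤ X := by exact_mod_cast hX12
  have hXN : (X : ℝ) ≤ N := by exact_mod_cast (by omega : X ≤ N)
  have hNX : (N : ℝ) ≤ 4 * X := by exact_mod_cast h4X
  have hlogX : 0 < Real.log X := Real.log_pos (by linarith)
  have hlog : Real.log X ≤ Real.log N := Real.log_le_log (by linarith) hXN
  have key := h X N hX0 h3X h4X (by
    intro p hp hp2
    rw [card_empty, zero_add] at hp2
    have h5 : p = 2 := le_antisymm hp2 hp.two_le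
    refine ⟨1, fun h => hp.one_lt.ne' (Nat.dvd_one.1 h), ?_, by simp⟩
    rw [h5]
    intro h6
    have h7 : 1 % 2 = N % 2 := h6
    obtain ⟨t, ht⟩ := hev
    omega) D ((pow_le_pow_left₀ hlogX.le hlog B).trans hD) (by omega)
  rw [card_empty, zero_add] at key
  refine le_trans ?_ (key.trans ?_)
  · have h5 : (0 : ℝ) < Real.log X ^ (2 * k) := by positivity
    have h6 : Real.log X ^ (2 * k) ≤ Real.log N ^ (2 * k) := pow_le_pow_left₀ hlogX.le hlog _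
    calc c / 4 * (N * D / Real.log N ^ (2 * k)) ≤ c / 4 * (4 * X * D / Real.log X ^ (2 * k)) := by
          gcongr
      _ = _ := by ring
  · have hN0 : (0 : ℝ) < N := by linarith
    have h9 : (N : ℝ) ^ (1 / 10 : ℝ) ≤ (X : ℝ) ^ (1 / 9 : ℝ) := by
      have h5 := hN₁ N hN.1
      have e1 : (N : ℝ) ^ (1 / 10 : ℝ) * (N : ℝ) ^ (1 / 90 : ℝ) = (N : ℝ) ^ (1 / 9 : ℝ) := by
        rw [← Real.rpow_add hN0]; norm_num
      have h6 : (N : ℝ) ^ (1 / 9 : ℝ) ≤ 4 * (X : ℝ) ^ (1 / 9 : ℝ) := by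
        calc (N : ℝ) ^ (1 / 9 : ℝ) ≤ (4 * X) ^ (1 / 9 : ℝ) :=
              Real.rpow_le_rpow hN0.le hNX (by norm_num)
          _ = 4 ^ (1 / 9 : ℝ) * (X : ℝ) ^ (1 / 9 : ℝ) := Real.mul_rpow (by norm_num) (by linarith)
          _ ≤ 4 * (X : ℝ) ^ (1 / 9 : ℝ) := by
              apply mul_le_mul_of_nonneg_right _ (by positivity)
              calc (4 : ℝ) ^ (1 / 9 : ℝ) ≤ 4 ^ (1 : ℝ) :=
                    Real.rpow_le_rpow_of_exponent_le (by norm_num) (by norm_num)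
                _ = 4 := Real.rpow_one _
      have h7 : (0 : ℝ) ≤ (N : ℝ) ^ (1 / 10 : ℝ) := by positivity
      nlinarith
    have hsub : {q : ℕ | Chen X N q ∧ ∀ h ∈ (∅ : Finset ℕ), Almost r ((X : ℝ) ^ (1 / (r : ℝ))) (q + h)} ⊆
        {q : ℕ | q < N ∧ q.Prime ∧ Almost 2 ((N : ℝ) ^ (1 / 10 : ℝ)) (N - q)} := by
      rintro q ⟨⟨h1, h2, h3⟩, -⟩
      exact ⟨by omega, h1, h3.1, fun p hp hd => h9.trans (h3.2 p hp hd)⟩
    exact_mod_cast AP_mono hk hsub ((Set.finite_Iio N).subset fun q hq => hq.1)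

/-- **Progressions in the Goldbach-Chen primes of every even number.** (1) Progressions in arbitrary dense subsets of
the set `G` of the primes `q` with `N - q = P_2` in arbitrary sifted sets. (2) The same with `q + h`, `h ∈ H`, almost
primes. (3) EVERY large even number. -/
theorem result :
    (∀ m C : ℕ, 1 ≤ C → ∃ z₀ : ℕ, ∀ z : ℕ, z₀ ≤ z → ∃ δ : ℝ, 0 < δ ∧
      ∀ k : ℕ, 3 ≤ k → ∃ c₂ : ℝ, 0 < c₂ ∧ ∀ η : ℝ, 0 < η →
      ∃ c₃ : ℝ, 0 < c₃ ∧ ∃ B X₀ : ℕ, ∀ X N : ℕ, X₀ ≤ X → 3 * X ≤ N → N ≤ C * X →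
      ∀ E : ℕ → Finset ℕ, (∀ p : ℕ, p.Prime → z < p → (E p).card ≤ m) →
      (∀ p : ℕ, p.Prime → p ≤ z → ∃ a : ℕ, a % p ∉ E p ∧ ¬ p ∣ a ∧ ¬ a ≡ N [MOD p]) →
      (∀ D : ℕ, Real.log X ^ B ≤ D → (AP k D (G X N δ E) : ℝ) ≤ c₂ * (X * D * V z X N E ^ k)) ∧
      ∀ S : Set ℕ, S ⊆ G X N δ E →
        ({q : ℕ | q ∈ S ∧ ¬ OnAP k (Real.log X ^ B) S q}.ncard : ℝ) ≤ η * (G X N δ E).ncard ∧
        (η * (G X N δ E).ncard ≤ S.ncard → ∀ D : ℕ, Real.log X ^ B ≤ D → D ≤ X →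
          c₃ * (X * D * V z X N E ^ k) ≤ AP k D S)) ∧
    (∀ C : ℕ, 1 ≤ C → ∀ H : Finset ℕ,
      ∃ r : ℕ, 1 ≤ r ∧ ∀ k : ℕ, 3 ≤ k → ∃ c : ℝ, 0 < c ∧ ∃ B X₀ : ℕ, ∀ X N : ℕ, X₀ ≤ X →
      3 * X ≤ N → N ≤ C * X →
      (∀ p : ℕ, p.Prime → p ≤ H.card + 2 →
        ∃ a : ℕ, ¬ p ∣ a ∧ ¬ a ≡ N [MOD p] ∧ ∀ h ∈ H, ¬ p ∣ a + h) →
      ∀ D : ℕ, Real.log X ^ B ≤ D → D ≤ X → c * (X * D / Real.log X ^ ((H.card + 2) * k)) ≤
        AP k D {q : ℕ | Chen X N q ∧ ∀ h ∈ H, Almost r ((X : ℝ) ^ (1 / (r : ℝ))) (q + h)}) ∧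
    ∀ k : ℕ, 3 ≤ k → ∃ c : ℝ, 0 < c ∧ ∃ B N₀ : ℕ, ∀ N : ℕ, N₀ ≤ N → Even N →
      ∀ D : ℕ, Real.log N ^ B ≤ D → 3 * D ≤ N → c * (N * D / Real.log N ^ (2 * k)) ≤
        AP k D {q : ℕ | q < N ∧ q.Prime ∧ Almost 2 ((N : ℝ) ^ (1 / 10 : ℝ)) (N - q)} := by
  refine ⟨fun m C hC => ?_, fun C hC H => ?_, fun k hk => part3 k (by omega)⟩
  · obtain ⟨z₀, h⟩ := part1 m C hC
    refine ⟨z₀, fun z hz => ?_⟩
    obtain ⟨δ, c₁, hδ, -, h⟩ := h z hz
    refine ⟨δ, hδ, fun k hk => ?_⟩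
    obtain ⟨c₂, hc₂, h⟩ := h k (by omega)
    refine ⟨c₂, hc₂, fun η hη => ?_⟩
    obtain ⟨c₃, hc₃, B, X₀, h⟩ := h η hη
    exact ⟨c₃, hc₃, B, X₀, fun X N hX h3 hC E hE hA => (h X N hX h3 hC E hE hA).2⟩
  · obtain ⟨r, hr, h⟩ := part2 C hC H
    exact ⟨r, hr, fun k hk => h k (by omega)⟩

end Pool.Agent.Results.MP_dd84fd_nt.ChenProgressions
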