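import Pool.Agent.KS6_51.G6
import Pool.Agent.KS6_51.CH10

/-!
# Chen's theorem for every even number, with the prime in an arbitrary sifted set

For EVERY integer `N` in `[3 X, C X]` we count the representations `N = q + n` with a PRIME `q` and a number `n` which is
a prime or the product of TWO primes, both at least `X ^ (1 / 9)`, where `n` is in the window `[X, 2 X]`, and where in
addition up to `m` ARBITRARY residue classes modulo every prime `p < X ^ δ` are forbidden for `q`.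

(1) There are at least `c (X / log X) ∏_p (1 - (number of the forbidden reduced classes) / (p - 1))` such representations,
where also the class of `N` is forbidden modulo `p`, and `p` runs over the primes between the fixed number `z` and `X`. This
is the expected order of magnitude, including the dependence on the prime factors of `N`. The constants are independent of `N` and
of the classes. For the primes `p ≤ z` any number of classes may be forbidden, if the problem has no local obstruction.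

(2) In particular, let `H` be a finite set of shifts. For every `N` without local obstruction modulo the primes
`p ≤ |H| + 2` (so for every even `N` if `H` is empty) the number of the representations for which every
`q + h`, `h ∈ H`, has at most `r` prime factors, all at least `X ^ (1 / r)`, is at least
`c X / (log X) ^ (|H| + 2)`.

Proof. Chen's theorem for `n` and `a n + b`, with arbitrary `b`, inside arbitrary sifted sets (`Pool.Agent.KS6_51.CG.chen`):
the linear sieve with a preliminary sieve of dimension `m + 1` for the primes below `X ^ ε`, the theorem of Bombieri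
and Vinogradov for the primes `a n + b` and, after the switching of the roles of the two numbers, for the
products `n = p₁ p₂ p₃`. The analytic parts are those of the starting files (`Pool.Agent.Y843.CH` and the modules
cited there); the assembly is new.
-/

set_option autoImplicit false

namespace Pool.Agent.Results.MP_dd84fd_nt.ChenSiftedGoldbach

open Finset Filter Pool.Agent.KS6_51

open Classical in
/-- The number of the residues `d ≠ 0` modulo `p` which are forbidden for the prime `q`: those of `E p`, and the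
residue of `N`. -/
noncomputable def bad (N : ℕ) (E : ℕ → Finset ℕ) (p : ℕ) : ℕ :=
  ((range p).filter (fun d => d ≠ 0 ∧ (d ∈ E p ∨ d = N % p))).card

/-- `k` is the product of at most `s` primes, all of them at least `y`. -/
def Almost (s : ℕ) (y : ℝ) (k : ℕ) : Prop :=
  k.primeFactorsList.length ≤ s ∧ ∀ p : ℕ, p.Prime → p ∣ k → y ≤ p

/-- `N - q` is in the window `[X, 2 X]` and is the product of at most two primes, both at least `X ^ (1 / 9)`, and
`q` is a prime. -/
def Chen (X N q : ℕ) : Prop :=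
  q.Prime ∧ (q + X ≤ N ∧ N ≤ q + 2 * X) ∧ Almost 2 ((X : ℝ) ^ (1 / 9 : ℝ)) (N - q)

/-- the reflection -/
def refl (N p c : ℕ) : ℕ := (N + (p - 1) * c) % p

theorem refl_lt {N p c : ℕ} (hp : 0 < p) : refl N p c < p := Nat.mod_lt _ hp

theorem refl_add {N p c : ℕ} (hp : 0 < p) : refl N p c + c ≡ N [MOD p] := by
  unfold refl
  have h1 : (N + (p - 1) * c) % p + c ≡ N + (p - 1) * c + c [MOD p] :=
    (Nat.mod_modEq _ _).add_right c
  refine h1.trans ?_
  obtain ⟨k, rfl⟩ : ∃ k, p = k + 1 := ⟨p - 1, by omega⟩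
  have e : N + (k + 1 - 1) * c + c = N + (k + 1) * c := by
    rw [Nat.add_sub_cancel]; ring
  rw [e]
  show (N + (k + 1) * c) % (k + 1) = N % (k + 1)
  rw [Nat.add_mul_mod_self_left]

theorem refl_unique {N p c d : ℕ} (hp : 0 < p) (hd : d < p) (h : d + c ≡ N [MOD p]) :
    refl N p c = d :=
  Nat.ModEq.eq_of_lt_of_lt (Nat.ModEq.add_right_cancel' c ((refl_add hp).trans h.symm))
    (refl_lt hp) hd

theorem refl_refl {N p c : ℕ} (hp : 0 < p) (hc : c < p) : refl N p (refl N p c) = c := by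
  apply refl_unique hp hc
  rw [add_comm]
  exact refl_add hp

open Classical in
/-- the reflected classes -/
noncomputable def rE (N : ℕ) (E : ℕ → Finset ℕ) (p : ℕ) : Finset ℕ :=
  (range p).filter (fun c => refl N p c ∈ E p)

theorem card_rE {N : ℕ} {E : ℕ → Finset ℕ} {p : ℕ} (hp : 0 < p) :
    (rE N E p).card ≤ (E p).card := by
  classical
  apply card_le_card_of_injOn (refl N p)
  · intro c hc
    unfold rE at hc
    rw [mem_coe, mem_filter] at hc
    exact mem_coe.2 hc.2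
  · intro c hc d hd hcd
    unfold rE at hc hd
    rw [mem_coe, mem_filter, mem_range] at hc hd
    rw [← refl_refl (N := N) hp hc.1, hcd, refl_refl hp hd.1]

theorem nu_eq {N : ℕ} {E : ℕ → Finset ℕ} {p : ℕ} (hp : 0 < p) :
    CG.nu (-1) N (rE N E) p = bad N E p + 1 := by
  classical
  unfold CG.nu bad
  have h0 : (0 : ℕ) ∉ (range p).filter (fun d => d ≠ 0 ∧ (d ∈ E p ∨ d = N % p)) := by
    rw [mem_filter]
    exact fun h => h.2.1 rfl
  rw [← card_cons h0]
  apply card_nbij' (refl N p) (refl N p)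
  · intro c hc
    rw [mem_coe, mem_filter, mem_range] at hc
    obtain ⟨h1, h2⟩ := hc
    rw [mem_coe, mem_cons, mem_filter, mem_range]
    by_cases h3 : refl N p c = 0
    · exact Or.inl h3
    · right
      refine ⟨refl_lt hp, h3, ?_⟩
      rcases h2 with h2 | h2 | h2
      · unfold rE at h2
        rw [mem_filter] at h2
        exact Or.inl h2.2
      · right
        apply refl_unique hp (Nat.mod_lt _ hp)
        rw [h2, add_zero]
        exact Nat.mod_modEq _ _
      · exfalso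
        apply h3
        apply refl_unique hp hp
        rw [zero_add]
        have h4 : (p : ℤ) ∣ (N : ℤ) - c := by
          have e : (-1 : ℤ) * (c : ℤ) + (N : ℤ) = (N : ℤ) - c := by ring
          rwa [e] at h2
        exact (Int.natCast_modEq_iff).1 ((Int.modEq_iff_dvd).2 h4)
  · intro d hd
    rw [mem_coe, mem_cons, mem_filter, mem_range] at hd
    rw [mem_coe, mem_filter, mem_range]
    refine ⟨refl_lt hp, ?_⟩
    rcases hd with rfl | ⟨h1, -, h2 | h2⟩
    · right
      right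
      have h3 := refl_add (N := N) (c := 0) hp
      have h4 := ((Int.natCast_modEq_iff).2 h3).dvd
      push_cast at h4
      have e : (-1 : ℤ) * ((refl N p 0 : ℕ) : ℤ) + (N : ℤ) = (N : ℤ) - (((refl N p 0 : ℕ) : ℤ) + 0) := by
        ring
      rw [e]
      exact h4
    · left
      unfold rE
      rw [mem_filter, mem_range, refl_refl hp h1]
      exact ⟨refl_lt hp, h2⟩
    · right
      left
      apply refl_unique hp hp
      rw [h2, zero_add]
      exact Nat.mod_modEq _ _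
  · intro c hc
    rw [mem_coe, mem_filter, mem_range] at hc
    exact refl_refl hp hc.1
  · intro d hd
    rw [mem_coe, mem_cons, mem_filter, mem_range] at hd
    rcases hd with rfl | h
    · exact refl_refl hp hp
    · exact refl_refl hp h.1

theorem part1 (m C : ℕ) (hC : 1 ≤ C) : ∃ z₀ : ℕ, ∀ z : ℕ, z₀ ≤ z →
    ∃ δ c : ℝ, 0 < δ ∧ 0 < c ∧ ∃ X₀ : ℕ, ∀ X N : ℕ, X₀ ≤ X → 3 * X ≤ N → N ≤ C * X →
    ∀ E : ℕ → Finset ℕ, (∀ p : ℕ, p.Prime → z < p → (E p).card ≤ m) →
    (∀ p : ℕ, p.Prime → p ≤ z → ∃ a : ℕ, a % p ∉ E p ∧ ¬ p ∣ a ∧ ¬ a ≡ N [MOD p]) →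
    c * (X / Real.log X * ∏ p ∈ (Ioc z X).filter Nat.Prime, (1 - (bad N E p : ℝ) / ((p : ℝ) - 1))) ≤
      (({q : ℕ | Chen X N q ∧
        ∀ p : ℕ, p.Prime → (p : ℝ) < (X : ℝ) ^ δ → q % p ∉ E p}.ncard : ℕ) : ℝ) := by
  classical
  obtain ⟨z₀, hz₀⟩ := CG.chen m C hC (-1) (by norm_num)
  refine ⟨z₀, fun z hz => ?_⟩
  obtain ⟨δ, c, X₀, hδ, hc, h⟩ := hz₀ z hz
  refine ⟨δ, c, hδ, hc, max X₀ 1, ?_⟩
  intro X N hX hN3 hNC E hE hA
  have hX0 : X₀ ≤ X := (le_max_left _ _).trans hX
  have hX1 : 1 ≤ X := (le_max_right _ _).trans hX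
  have key := h X hX0 (N : ℤ) (by exact_mod_cast (by omega : N ≠ 0)) (by
    unfold CG.Sz
    have h1 : (3 : ℤ) * X ≤ N := by exact_mod_cast hN3
    have h2 : (N : ℤ) ≤ C * X := by exact_mod_cast hNC
    have h3 : (0 : ℤ) ≤ X := Int.natCast_nonneg X
    refine ⟨⟨?_, ?_⟩, ?_, ?_⟩ <;> linarith) (rE N E) (by
    intro p hp hzp
    exact (card_rE hp.pos).trans (hE p hp hzp)) (by
    intro p hp hpz
    obtain ⟨a, ha1, ha2, ha3⟩ := hA p hp hpz
    have h1 := refl_lt (N := N) (c := a % p) hp.pos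
    have h2 : refl N p (a % p) + a % p ≡ N [MOD p] := refl_add hp.pos
    refine ⟨refl N p (a % p), ?_, ?_, ?_⟩
    · rw [Nat.mod_eq_of_lt h1]
      unfold rE
      rw [mem_filter, not_and]
      intro _
      rw [refl_refl hp.pos (Nat.mod_lt _ hp.pos)]
      exact ha1
    · intro hd
      have h3 := Nat.eq_zero_of_dvd_of_lt hd h1
      rw [h3, zero_add] at h2
      exact ha3 ((Nat.mod_modEq a p).symm.trans h2)
    · intro hd
      apply ha2
      have h3 := ((Int.natCast_modEq_iff).2 h2).dvd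
      push_cast at h3
      have h4 : (p : ℤ) ∣ (a : ℤ) % p := by
        have h5 := dvd_sub hd h3
        have e : (-1 : ℤ) * ((refl N p (a % p) : ℕ) : ℤ) + (N : ℤ) -
            ((N : ℤ) - (((refl N p (a % p) : ℕ) : ℤ) + (a : ℤ) % p)) = (a : ℤ) % p := by ring
        rwa [e] at h5
      have h5 : (p : ℤ) ∣ (a : ℤ) := (Int.dvd_iff_dvd_of_dvd_sub Int.dvd_self_sub_emod).2 h4
      exact_mod_cast h5)
  have e1 : ∏ p ∈ (Ioc z X).filter Nat.Prime,
      (1 - ((CG.nu (-1) N (rE N E) p : ℝ) - 1) / ((p : ℝ) - 1)) =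
      ∏ p ∈ (Ioc z X).filter Nat.Prime, (1 - (bad N E p : ℝ) / ((p : ℝ) - 1)) := by
    apply prod_congr rfl
    intro p hp
    rw [mem_filter] at hp
    rw [nu_eq hp.2.pos]
    push_cast
    ring_nf
  rw [e1] at key
  refine key.trans ?_
  have hfin : ({q : ℕ | Chen X N q ∧
        ∀ p : ℕ, p.Prime → (p : ℝ) < (X : ℝ) ^ δ → q % p ∉ E p}).Finite :=
    (Set.finite_Iic N).subset fun q hq => by
      have := hq.1.2.1.1
      simp only [Set.mem_Iic]
      omega
  have hinj : ((CG.Good (-1) N X δ (rE N E)).card : ℕ) ≤ {q : ℕ | Chen X N q ∧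
        ∀ p : ℕ, p.Prime → (p : ℝ) < (X : ℝ) ^ δ → q % p ∉ E p}.ncard := by
    rw [Set.ncard_eq_toFinset_card _ hfin]
    apply card_le_card_of_injOn (fun n => N - n)
    · intro n hn
      rw [mem_coe] at hn
      unfold CG.Good at hn
      rw [mem_filter, mem_Icc] at hn
      obtain ⟨⟨hn1, hn2⟩, hpr, hlen, h9, hsf⟩ := hn
      have hnN : n ≤ N := by omega
      have e2 : (-1 * (n : ℤ) + (N : ℤ)).toNat = N - n := by omega
      rw [e2] at hpr
      have e3 : N - (N - n) = n := by omega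
      rw [mem_coe, Set.Finite.mem_toFinset]
      refine ⟨⟨hpr, ⟨?_, ?_⟩, ?_, ?_⟩, ?_⟩
      · show N - n + X ≤ N
        omega
      · show N ≤ N - n + 2 * X
        omega
      · show (N - (N - n)).primeFactorsList.length ≤ 2
        rw [e3]
        exact hlen
      · intro p hp hd
        rw [e3] at hd
        exact h9 p hp hd
      · intro p hp hpX hmem
        apply hsf p hp hpX
        unfold rE
        rw [mem_filter, mem_range]
        refine ⟨Nat.mod_lt _ hp.pos, ?_⟩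
        have h4 : refl N p (n % p) = (N - n) % p := by
          apply refl_unique hp.pos (Nat.mod_lt _ hp.pos)
          have h5 : (N - n) % p + n % p ≡ (N - n) + n [MOD p] :=
            (Nat.mod_modEq _ _).add (Nat.mod_modEq _ _)
          rwa [Nat.sub_add_cancel hnN] at h5
        rw [h4]
        exact hmem
    · intro n hn n' hn' hnn
      rw [mem_coe] at hn hn'
      unfold CG.Good at hn hn'
      rw [mem_filter, mem_Icc] at hn hn'
      have h1 : N - n = N - n' := hnn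
      omega
  exact_mod_cast hinj

/-- a residue outside a small set -/
theorem exists_free {p m : ℕ} (_hp : 0 < p) (T : Finset ℕ) (hT : T.card ≤ m) (N : ℕ)
    (hmp : m + 2 < p) : ∃ a : ℕ, a % p ∉ T ∧ ¬ p ∣ a ∧ ¬ a ≡ N [MOD p] := by
  classical
  have h1 : (T ∪ {0, N % p}).card < (range p).card := by
    have h2 := card_union_le T {0, N % p}
    have h3 : ({0, N % p} : Finset ℕ).card ≤ 2 := card_le_two
    rw [card_range]
    omega
  obtain ⟨a, ha1, ha2⟩ := exists_mem_notMem_of_card_lt_card h1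
  rw [mem_range] at ha1
  rw [mem_union, mem_insert, mem_singleton, not_or, not_or] at ha2
  refine ⟨a, ?_, ?_, ?_⟩
  · rw [Nat.mod_eq_of_lt ha1]
    exact ha2.1
  · intro hd
    exact ha2.2.1 (Nat.eq_zero_of_dvd_of_lt hd ha1)
  · intro h
    have h4 : a % p = N % p := h
    rw [Nat.mod_eq_of_lt ha1] at h4
    exact ha2.2.2 h4

theorem bad_le {N m p : ℕ} {E : ℕ → Finset ℕ} (hE : (E p).card ≤ m) : bad N E p ≤ m + 1 := by
  classical
  unfold bad
  have hsub : (range p).filter (fun d => d ≠ 0 ∧ (d ∈ E p ∨ d = N % p)) ⊆ E p ∪ {N % p} := by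
    intro d hd
    rw [mem_filter] at hd
    rw [mem_union, mem_singleton]
    exact hd.2.2
  refine (card_le_card hsub).trans ((card_union_le _ _).trans ?_)
  rw [card_singleton]
  omega

theorem prod_lower (m : ℕ) : ∃ c : ℝ, 0 < c ∧ ∀ z X : ℕ, 2 * (m + 1) + 2 ≤ z → 3 ≤ X →
    ∀ (N : ℕ) (E : ℕ → Finset ℕ), (∀ p : ℕ, p.Prime → z < p → (E p).card ≤ m) →
    c / Real.log X ^ (m + 1) ≤
      ∏ p ∈ (Ioc z X).filter Nat.Prime, (1 - (bad N E p : ℝ) / ((p : ℝ) - 1)) := by
  obtain ⟨c, hc, h⟩ := CH.prod_ge (m + 1) (by omega)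
  refine ⟨c, hc, ?_⟩
  intro z X hz hX N E hE
  have h1 := h z X hz hX 2 (fun p => (bad N E p : ℝ) / ((p : ℝ) - 1)) (by
    intro p hp hzp
    have h2 : (0 : ℝ) < (p : ℝ) - 1 := by
      have : (1 : ℝ) < p := by exact_mod_cast hp.one_lt
      linarith
    refine ⟨by positivity, ?_⟩
    apply div_le_div_of_nonneg_right _ h2.le
    exact_mod_cast bad_le (hE p hp hzp))
  have e : Pool.Agent.Y660.RP.P1 X z 2 = (Ioc z X).filter Nat.Prime := by
    ext p
    rw [Pool.Agent.Y660.RP.mem_P1, mem_filter, mem_Ioc]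
    constructor
    · exact fun h => ⟨h.1, h.2.1⟩
    · intro h
      refine ⟨h.1, h.2, ?_⟩
      rw [Real.rpow_two]
      have h3 : (p : ℝ) ≤ X := by exact_mod_cast h.1.2
      have h4 : (3 : ℝ) ≤ X := by exact_mod_cast hX
      nlinarith
  rwa [e] at h1

theorem part2 (C : ℕ) (hC : 1 ≤ C) (H : Finset ℕ) :
    ∃ r : ℕ, 1 ≤ r ∧ ∃ c : ℝ, 0 < c ∧ ∃ X₀ : ℕ, ∀ X N : ℕ, X₀ ≤ X → 3 * X ≤ N → N ≤ C * X →
    (∀ p : ℕ, p.Prime → p ≤ H.card + 2 →
      ∃ a : ℕ, ¬ p ∣ a ∧ ¬ a ≡ N [MOD p] ∧ ∀ h ∈ H, ¬ p ∣ a + h) →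
    c * (X / Real.log X ^ (H.card + 2)) ≤
      (({q : ℕ | Chen X N q ∧ ∀ h ∈ H, Almost r ((X : ℝ) ^ (1 / (r : ℝ))) (q + h)}.ncard : ℕ) : ℝ) := by
  classical
  obtain ⟨z₀, hz₀⟩ := part1 H.card C hC
  obtain ⟨c₁, hc₁, hprod⟩ := prod_lower H.card
  obtain ⟨δ, c, hδ, hc, X₀, h⟩ := hz₀ (max z₀ (2 * (H.card + 1) + 2)) (le_max_left _ _)
  obtain ⟨z, hz⟩ : ∃ z, z = max z₀ (2 * (H.card + 1) + 2) := ⟨_, rfl⟩
  rw [← hz] at h
  have hzH : 2 * (H.card + 1) + 2 ≤ z := by rw [hz]; exact le_max_right _ _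
  obtain ⟨r, hr⟩ : ∃ r : ℕ, r = max (⌈2 / δ⌉₊) 1 := ⟨_, rfl⟩
  have hr1 : 1 ≤ r := by rw [hr]; exact le_max_right _ _
  have hrδ : 2 / δ ≤ r := by
    rw [hr]
    exact (Nat.le_ceil _).trans (by exact_mod_cast le_max_left _ _)
  refine ⟨r, hr1, c * c₁, by positivity, max X₀ (max 3 (C + H.sup id + 1)), ?_⟩
  intro X N hX hN3 hNC hloc
  rw [max_le_iff, max_le_iff] at hX
  obtain ⟨hX0, hX3, hXC⟩ := hX
  have hXr : (1 : ℝ) ≤ X := by exact_mod_cast (by omega : 1 ≤ X)
  have hcard : ∀ p : ℕ, p.Prime → z < p → (CH.zer H p).card ≤ H.card := fun p hp _ =>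
    CH.card_zer H hp.pos
  have key := h X N hX0 hN3 hNC (CH.zer H) hcard (by
    intro p hp hpz
    rcases le_or_gt p (H.card + 2) with hpH | hpH
    · obtain ⟨a, h1, h2, h3⟩ := hloc p hp hpH
      refine ⟨a, ?_, h1, h2⟩
      rw [CH.mod_mem_zer hp.pos]
      rintro ⟨s, hs, hd⟩
      exact h3 s hs hd
    · exact exists_free hp.pos _ (CH.card_zer H hp.pos) N hpH)
  have hp1 := hprod z X hzH hX3 N (CH.zer H) hcard
  have hlog : 0 < Real.log X := Real.log_pos (by exact_mod_cast (by omega : 1 < X))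
  have e1 : c * c₁ * (X / Real.log X ^ (H.card + 2)) =
      c * (X / Real.log X * (c₁ / Real.log X ^ (H.card + 1))) := by
    rw [pow_succ (Real.log (X : ℝ)) (H.card + 1)]
    field_simp
  rw [e1]
  have h2 : c * (X / Real.log X * (c₁ / Real.log X ^ (H.card + 1))) ≤
      c * (X / Real.log X * ∏ p ∈ (Ioc z X).filter Nat.Prime,
        (1 - (bad N (CH.zer H) p : ℝ) / ((p : ℝ) - 1))) := by
    gcongr
  refine h2.trans (key.trans ?_)
  have hfin : ({q : ℕ | Chen X N q ∧
      ∀ h ∈ H, Almost r ((X : ℝ) ^ (1 / (r : ℝ))) (q + h)}).Finite :=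
    (Set.finite_Iic N).subset fun q hq => by
      have := hq.1.2.1.1
      simp only [Set.mem_Iic]
      omega
  have hdr : (X : ℝ) ^ (1 / (r : ℝ)) ≤ (X : ℝ) ^ δ := by
    apply Real.rpow_le_rpow_of_exponent_le hXr
    rw [div_le_iff₀ hδ] at hrδ
    rw [div_le_iff₀ (by exact_mod_cast hr1)]
    linarith
  have hsub : {q : ℕ | Chen X N q ∧
      ∀ p : ℕ, p.Prime → (p : ℝ) < (X : ℝ) ^ δ → q % p ∉ CH.zer H p} ⊆
      {q : ℕ | Chen X N q ∧ ∀ h ∈ H, Almost r ((X : ℝ) ^ (1 / (r : ℝ))) (q + h)} := by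
    rintro q ⟨h3, h4⟩
    refine ⟨h3, fun s hs => ?_⟩
    have hpf : ∀ p : ℕ, p.Prime → p ∣ q + s → (X : ℝ) ^ δ ≤ p := by
      intro p hp hd
      by_contra hlt
      push Not at hlt
      apply h4 p hp hlt
      rw [CH.mod_mem_zer hp.pos]
      exact ⟨s, hs, hd⟩
    have hsX : s ≤ H.sup id := le_sup (f := id) hs
    have hq0 := h3.1.pos
    have hqN : q ≤ N := by
      have := h3.2.1.1
      omega
    refine ⟨CH.length_le' hδ (by omega) (by omega) ?_ hrδ hpf, fun p hp hd => hdr.trans (hpf p hp hd)⟩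
    have h5 : q + s ≤ C * X + H.sup id := by omega
    have h6 : C * X + H.sup id ≤ X ^ 2 := by nlinarith
    omega
  exact_mod_cast Set.ncard_le_ncard hsub hfin

/-- **Chen's theorem for every even number, inside sifted sets.** (1) The general lower bound, of the expected order of
magnitude. (2) The primes `q` for which all the `q + h`, `h ∈ H`, are almost primes. -/
theorem result :
    (∀ m C : ℕ, 1 ≤ C → ∃ z₀ : ℕ, ∀ z : ℕ, z₀ ≤ z →
      ∃ δ c : ℝ, 0 < δ ∧ 0 < c ∧ ∃ X₀ : ℕ, ∀ X N : ℕ, X₀ ≤ X → 3 * X ≤ N → N ≤ C * X →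
      ∀ E : ℕ → Finset ℕ, (∀ p : ℕ, p.Prime → z < p → (E p).card ≤ m) →
      (∀ p : ℕ, p.Prime → p ≤ z → ∃ a : ℕ, a % p ∉ E p ∧ ¬ p ∣ a ∧ ¬ a ≡ N [MOD p]) →
      c * (X / Real.log X *
        ∏ p ∈ (Ioc z X).filter Nat.Prime, (1 - (bad N E p : ℝ) / ((p : ℝ) - 1))) ≤
        (({q : ℕ | Chen X N q ∧
          ∀ p : ℕ, p.Prime → (p : ℝ) < (X : ℝ) ^ δ → q % p ∉ E p}.ncard : ℕ) : ℝ)) ∧
    ∀ C : ℕ, 1 ≤ C → ∀ H : Finset ℕ,
      ∃ r : ℕ, 1 ≤ r ∧ ∃ c : ℝ, 0 < c ∧ ∃ X₀ : ℕ, ∀ X N : ℕ, X₀ ≤ X → 3 * X ≤ N → N ≤ C * X →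
      (∀ p : ℕ, p.Prime → p ≤ H.card + 2 →
        ∃ a : ℕ, ¬ p ∣ a ∧ ¬ a ≡ N [MOD p] ∧ ∀ h ∈ H, ¬ p ∣ a + h) →
      c * (X / Real.log X ^ (H.card + 2)) ≤
        (({q : ℕ | Chen X N q ∧
          ∀ h ∈ H, Almost r ((X : ℝ) ^ (1 / (r : ℝ))) (q + h)}.ncard : ℕ) : ℝ) :=
  ⟨fun m C hC => part1 m C hC, fun C hC H => part2 C hC H⟩

end Pool.Agent.Results.MP_dd84fd_nt.ChenSiftedGoldbach
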