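import Pool.Agent.KS6_25.Nbhd

/-!
# The lower bound for the number of Goldbach representations near almost all members of thin families in
# the residue classes of EVERY modulus `q ≤ N ^ (4 / 5 - ρ)`

Let `q ≤ N ^ (4 / 5 - ρ)` be an arbitrary modulus, and `a` an integer with `gcd(a, q) ≤ (log N)^T`. The residue
class of `a` contains about `N / q` integers `n = a + q m` up to `N`. Here it is shown that the lower bound of the
problem holds (with `δ = 1 / 8`, and in all windows) for all even `n = a + q m`, `n ≤ N`, with `m` in a neighbourhood of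
`w`, for almost all members `w` of an arbitrary family of integers whose additive energy of some order
`h` is as small as possible up to a power of `log N`. Such a family may have as few as `(N / q) ^ (1 / h)` members
(so for `q` near `N ^ (4 / 5)` fewer than any given small power of `N`), while an estimate of the number of exceptions
in the whole residue class gives nothing about sets with fewer than `(N / q) / (log N)^A` members.

Definitions used (in `Pool.Agent.H560R3.GB`): `g n`: the number of ordered pairs of primes `(p₁, p₂)` with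
`p₁ + p₂ = n`; `HL n`: the prediction `sing n * (n / (log n)²)` of Hardy and Littlewood, where
`sing n = 2 C₂ ∏_{p ∣ n, p > 2} (p - 1) / (p - 2)` and `C₂ = ∏_{p > 2} (1 - 1 / (p - 1) ^ 2)`.

Proof (`KS6_25`). Let `H(β)` be the sum of `E(n) e(n β)` over the `n ≤ 2 N` of the residue class, where `E` is the
convolution of the primes (up to `y`) with the difference of a minorant of the primes and a sieve model. By the
theorem of `T6/H3/FF` the mean square of `E` over the class is small, hence `H` is small everywhere. On the other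
hand `H(β)` is a sum over the residue classes `l` of the products of the sums of the two factors over the
classes `l` and `a - l`, whence the first moment of `H` is at most `N` times a power of the logarithm: there is no
loss of a factor `q`. By Hölder's inequality and the majorant property of even moments the sum of `|E|` over a
family in the class is bounded in terms of its additive energy, with a gain of an arbitrary power of `log N`.
-/

set_option autoImplicit false

namespace Pool.Agent.Results.MP_dd84fd_nt.ThinFamiliesEveryModulus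

open Finset
open Pool.Agent.H560R3.GB (g HL sing)

/-- The number of primes `p` with `y₁ < p ≤ y₂` such that `n - p` is a prime. -/
def count (n y₁ y₂ : ℕ) : ℕ := ((Ioc y₁ y₂).filter (fun p => p.Prime ∧ (n - p).Prime)).card

/-- (1) `g n` is at least `(1 / 8) HL n`, and at least `(1 / 8) n / (log n)²`; (2) in every window
`(y₁, y₂] ⊆ (0, n]` of a length of at least `n / (log n)^W` the number of primes `p` such that `n - p` is a prime is
at least `(1 / 8) sing n * (y₂ - y₁) / (log n)²`. -/
def Lower (W n : ℕ) : Prop :=
  ((1 / 8) * HL n ≤ g n ∧ (1 / 8) * ((n : ℝ) / Real.log n ^ 2) ≤ g n) ∧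
  ∀ y₁ y₂ : ℕ, y₁ < y₂ → y₂ ≤ n → (n : ℝ) / Real.log n ^ W ≤ (y₂ : ℝ) - y₁ →
    (1 / 8) * (sing n * ((y₂ : ℝ) - y₁) / Real.log n ^ 2) ≤ (count n y₁ y₂ : ℝ)

/-- The additive energy of order `h` of a finite family of integers: the number of the solutions of
`w (i 1) + ... + w (i h) = w (j 1) + ... + w (j h)`. -/
noncomputable def energy (h : ℕ) {ι : Type} [Fintype ι] (w : ι → ℤ) : ℕ :=
  Nat.card {v : (Fin h → ι) × (Fin h → ι) // ∑ j, w (v.1 j) = ∑ j, w (v.2 j)}

/-- The number of the members `w i` of the family for which there is an integer `m` with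
`|m - w i| ≤ (log N)^B` such that `n = a + q m` is even, `0 < n ≤ N`, and `Lower W n` is false. -/
noncomputable def exceptions (W B N q : ℕ) (a : ℤ) {ι : Type} (w : ι → ℤ) : ℕ :=
  Nat.card {i : ι // ∃ m : ℤ, |(m : ℝ) - w i| ≤ Real.log N ^ B ∧ 0 < a + q * m ∧ a + q * m ≤ N ∧
    Even (a + q * m) ∧ ¬ Lower W (a + q * m).toNat}

theorem cnt_eq (n : ℕ) : Pool.Agent.W93.PG.cnt n 0 n = g n := by
  unfold Pool.Agent.W93.PG.cnt g
  refine card_bij (fun p _ => (p, n - p)) ?_ ?_ ?_
  · intro p hp
    rw [mem_filter, mem_Ioc] at hp
    rw [mem_filter, HasAntidiagonal.mem_antidiagonal]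
    exact ⟨by simp only; omega, hp.2⟩
  · intro p _ p' _ h
    exact congrArg Prod.fst h
  · rintro ⟨a, b⟩ h
    rw [mem_filter, HasAntidiagonal.mem_antidiagonal] at h
    obtain ⟨h1, h2, h3⟩ := h
    simp only at h1 h2 h3
    have ha := h2.pos
    refine ⟨a, ?_, ?_⟩
    · rw [mem_filter, mem_Ioc]
      refine ⟨⟨ha, by omega⟩, h2, ?_⟩
      have : n - a = b := by omega
      rw [this]
      exact h3
    · have : n - a = b := by omega
      simp [this]

theorem lower_of (W n : ℕ) (hn : 3 ≤ n) (hw : Pool.Agent.T6.H3.FF.WinM W n) : Lower W n := by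
  have hn3 : (3 : ℝ) ≤ n := by exact_mod_cast hn
  have hL1 : 1 ≤ Real.log n := by
    rw [Real.le_log_iff_exp_le (by linarith)]
    have := Real.exp_one_lt_d9
    linarith
  have h1 := hw 0 n (by omega) le_rfl (by
    rw [Nat.cast_zero, sub_zero]
    exact div_le_self (Nat.cast_nonneg _) (one_le_pow₀ hL1))
  rw [cnt_eq] at h1
  have h2 := Pool.Agent.R460.GS.one_le_sing n
  have h3 : (0 : ℝ) ≤ (n : ℝ) / Real.log n ^ 2 := by positivity
  have h4 : (1 / 8) * HL n ≤ g n := by
    refine le_trans (le_of_eq ?_) h1
    unfold Pool.Agent.H560R3.GB.HL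
    push_cast
    ring
  refine ⟨⟨h4, le_trans ?_ h4⟩, hw⟩
  unfold Pool.Agent.H560R3.GB.HL
  nlinarith

/-- Let `h ≥ 1`, `A`, `B`, `C`, `T`, `W` and `ρ > 0` be fixed, and let `N` be large. Let `1 ≤ q ≤ N ^ (4 / 5 - ρ)` be an
arbitrary integer, `a` an integer with `gcd(a, q) ≤ (log N)^T`, and `w i`, `i ∈ ι`, an arbitrary finite family of
integers. Suppose that the additive energy of order `h` of the family is at most `(log N)^C` times
`(#ι) ^ (2 h) / (N / q)` (up to the power of the logarithm this is the least possible energy of a family in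
`[0, N / q]`). Then for all members `w i` of the family, with at most `#ι / (log N)^A` exceptions, all even
numbers `n = a + q m`, `0 < n ≤ N`, with `|m - w i| ≤ (log N)^B` satisfy `g n ≥ (1 / 8) HL n ≥ (1 / 8) n / (log n)²`, and
they have at least one eighth of the expected number of representations with a prime in an arbitrary window
of a length of at least `n / (log n)^W`. -/
theorem result (h : ℕ) (hh : 1 ≤ h) (A B C T W : ℕ) (ρ : ℝ) (hρ : 0 < ρ) :
    ∃ N₀ : ℕ, ∀ N : ℕ, N₀ ≤ N → ∀ q : ℕ, 1 ≤ q → (q : ℝ) ≤ (N : ℝ) ^ (4 / 5 - ρ) →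
      ∀ a : ℤ, (Int.gcd a q : ℝ) ≤ Real.log N ^ T → ∀ (ι : Type) [Fintype ι] (w : ι → ℤ),
      (energy h w : ℝ) * (N / q) ≤ Real.log N ^ C * (Fintype.card ι : ℝ) ^ (2 * h) →
        (exceptions W B N q a w : ℝ) ≤ Fintype.card ι / Real.log N ^ A := by
  exact Pool.Agent.KS6_25.nbhd (4 / 5 - ρ) (Lower W) h (fun C A T =>
    Pool.Agent.KS6_25.ff_thin Pool.Agent.T6.H3.FF.err4_all (Lower W) W 3 (fun n hn _ hw => lower_of W n hn hw)
      ρ hρ h C A T hh) A B C T

end Pool.Agent.Results.MP_dd84fd_nt.ThinFamiliesEveryModulus
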