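import Pool.Agent.KS6_25.SH.F3

/-!
# The asymptotic formula for the number of Goldbach representations near almost all members of thin families in
# EVERY short interval `(x, x + H]`, `H ≥ x ^ (1 / 3 + ρ)`

Let `x` be large and `x ^ (1 / 3 + ρ) ≤ H ≤ x`. For `h = 1` the theorem contains the asymptotic formula for all
but `H / (log x)^A` of the even integers of the interval `(x, x + H]`. The theorem treats families: let `w`
be an arbitrary family of integers of `(x, x + H]` whose additive energy of some order `h` is as small as possible up to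
a power of `log x`, that is at most `(log x)^C #ι ^ (2 h) / H`. Such a family may have as few as `H ^ (1 / h)` members
(for instance `x ^ (1 / (3 h) + ρ)`), so that an estimate of the number of exceptions in the interval gives nothing
about it. For almost all members `w i` of the family ALL even numbers `m` with `|m - w i| ≤ (log x)^B` satisfy the
asymptotic formula of Hardy and Littlewood, in all windows.

Definitions used (in `Pool.Agent.H560R3.GB`): `g n`: the number of ordered pairs of primes `(p₁, p₂)` with
`p₁ + p₂ = n`; `HL n`: the prediction `sing n * (n / (log n)²)` of Hardy and Littlewood, where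
`sing n = 2 C₂ ∏_{p ∣ n, p > 2} (p - 1) / (p - 2)` and `C₂ = ∏_{p > 2} (1 - 1 / (p - 1) ^ 2)`.

Proof (`KS6_25/SH`). Let `S(α)` be the exponential sum over `n ≤ N` (`N ≍ x`) of the difference of the
von Mangoldt function and a sieve model. The main point is the estimate `∑_{s < R} |S(α + s / (2 N + 1))|² ≤ N² / (log N)^A`
for ALL real `α` and all `R ≤ N ^ (2 / 3 - ρ)`: near rationals with a small denominator it follows from a mean value
theorem for the primes in residue classes in intervals of length `N ^ (1 / 3 + ρ)` (bilinear decomposition,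
Dirichlet polynomials, with a bounded set of exceptional frequencies at which one uses the zero free region); elsewhere
from the dispersion method for bilinear sums in short intervals. Averaging the circle method integral over a shift of
the circle by multiples of `1 / (2 N + 1)` (the family is in a short interval, hence its exponential sum
changes slowly), Hölder's inequality and the majorant property of even moments bound the sum of the error
terms over the family by its energy.
-/

set_option autoImplicit false

namespace Pool.Agent.Results.MP_dd84fd_nt.ThinFamiliesShortIntervals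

open Finset
open Pool.Agent.H560R3.GB (g HL sing)

/-- The number of primes `p` with `y₁ < p ≤ y₂` such that `n - p` is a prime. -/
def count (n y₁ y₂ : ℕ) : ℕ := ((Ioc y₁ y₂).filter (fun p => p.Prime ∧ (n - p).Prime)).card

/-- The asymptotic formula: (1) `g n` is `HL n` up to a relative error of at most `ε`; (2) in every window
`(y₁, y₂] ⊆ (0, n]` of a length of at least `n / (log n)^W` the number of primes `p` such that `n - p` is a prime is
`sing n * (y₂ - y₁) / (log n)²` up to a relative error of at most `ε`. -/
def Asym (ε : ℝ) (W n : ℕ) : Prop :=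
  |(g n : ℝ) - HL n| ≤ ε * HL n ∧
  ∀ y₁ y₂ : ℕ, y₁ < y₂ → y₂ ≤ n → (n : ℝ) / Real.log n ^ W ≤ (y₂ : ℝ) - y₁ →
    |(count n y₁ y₂ : ℝ) - sing n * ((y₂ : ℝ) - y₁) / Real.log n ^ 2| ≤ ε * (sing n * ((y₂ : ℝ) - y₁) / Real.log n ^ 2)

/-- The additive energy of order `h` of a finite family of integers: the number of the solutions of
`w (i 1) + ... + w (i h) = w (j 1) + ... + w (j h)`. -/
noncomputable def energy (h : ℕ) {ι : Type} [Fintype ι] (w : ι → ℤ) : ℕ :=
  Nat.card {v : (Fin h → ι) × (Fin h → ι) // ∑ j, w (v.1 j) = ∑ j, w (v.2 j)}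

/-- The number of the members `w i` of the family for which there is an even number `m` with `|m - w i| ≤ K` for which
`Asym ε W m` is false. -/
noncomputable def exceptions (ε : ℝ) (W : ℕ) (K : ℝ) {ι : Type} (w : ι → ℤ) : ℕ :=
  Nat.card {i : ι // ∃ m : ℕ, |(m : ℝ) - w i| ≤ K ∧ Even m ∧ ¬ Asym ε W m}

theorem cnt_eq (n : ℕ) : Pool.Agent.W93.PG.cnt n 0 n = g n := by
  unfold Pool.Agent.W93.PG.cnt g
  refine card_bij (fun p _ => (p, n - p)) ?_ ?_ ?_
  · intro p hp
    rw [mem_filter, mem_Ioc] at hp
    rw [mem_filter, HasAntidiagonal.mem_antidiagonal]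
    exact ⟨by simp only; omega, hp.2⟩
  · intro p _ p' _ h
    exact congrArg Prod.fst h
  · rintro ⟨a, b⟩ h
    rw [mem_filter, HasAntidiagonal.mem_antidiagonal] at h
    obtain ⟨h1, h2, h3⟩ := h
    simp only at h1 h2 h3
    have ha := h2.pos
    refine ⟨a, ?_, ?_⟩
    · rw [mem_filter, mem_Ioc]
      refine ⟨⟨ha, by omega⟩, h2, ?_⟩
      have : n - a = b := by omega
      rw [this]
      exact h3
    · have : n - a = b := by omega
      simp [this]

theorem asym_of (ε : ℝ) (W n : ℕ) (hn : 3 ≤ n) (hw : Pool.Agent.W93.PG.WinP ε W n) : Asym ε W n := by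
  have hn3 : (3 : ℝ) ≤ n := by exact_mod_cast hn
  have hL1 : 1 ≤ Real.log n := by
    rw [Real.le_log_iff_exp_le (by linarith)]
    have := Real.exp_one_lt_d9
    linarith
  have h1 := hw 0 n (by omega) le_rfl (by
    rw [Nat.cast_zero, sub_zero]
    exact div_le_self (Nat.cast_nonneg _) (one_le_pow₀ hL1))
  rw [cnt_eq] at h1
  have e : sing n * (((n : ℕ) : ℝ) - ((0 : ℕ) : ℝ)) / Real.log n ^ 2 = HL n := by
    unfold Pool.Agent.H560R3.GB.HL
    push_cast
    ring
  rw [e] at h1
  exact ⟨h1, hw⟩

/-- Let `h ≥ 1`, `A`, `B`, `C`, `W`, `ρ > 0` and `ε > 0` be fixed, and let `x` be large. Let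
`x ^ (1 / 3 + ρ) ≤ H ≤ x`, and let `w i`, `i ∈ ι`, be an arbitrary finite family of integers with `x < w i ≤ x + H`.
Suppose that the additive energy of order `h` of the family is at most `(log x)^C` times `(#ι) ^ (2 h) / H` (up to the
power of the logarithm this is the least possible energy of a family of `#ι` integers of the interval).
Then for all members `w i` of the family, with at most `#ι / (log x)^A` exceptions, all even numbers `m` with
`|m - w i| ≤ (log x)^B` satisfy the asymptotic formula of Hardy and Littlewood for the number of Goldbach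
representations, in all windows. -/
theorem result (h : ℕ) (hh : 1 ≤ h) (A B C W : ℕ) (ρ ε : ℝ) (hρ : 0 < ρ) (hε : 0 < ε) :
    ∃ x₀ : ℕ, ∀ x : ℕ, x₀ ≤ x → ∀ H : ℕ, (x : ℝ) ^ (1 / 3 + ρ) ≤ H → H ≤ x →
      ∀ (ι : Type) [Fintype ι] (w : ι → ℤ), (∀ i, (x : ℤ) < w i ∧ w i ≤ x + H) →
      (energy h w : ℝ) * H ≤ Real.log x ^ C * (Fintype.card ι : ℝ) ^ (2 * h) →
        (exceptions ε W (Real.log x ^ B) w : ℝ) ≤ Fintype.card ι / Real.log x ^ A := by
  have h4 : min ρ (1 / 4) ≤ 1 / 4 := min_le_right _ _
  have h0 : 0 < min ρ (1 / 4) := lt_min hρ (by norm_num)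
  obtain ⟨x₀, hx₀⟩ := Pool.Agent.KS6_25.SH.sh_nbhd (Asym ε W) h hh h0 (fun C A =>
    Pool.Agent.KS6_25.SH.sh_fam ε hε (Asym ε W) W 3 (fun n hn _ hw => asym_of ε W n hn hw) h C A hh
      (ρ := min ρ (1 / 4) / 2) (by linarith) (by linarith)) A B C
  refine ⟨x₀ + 1, fun x hx H hH hHx ι _ w hw hE => hx₀ x (by omega) H (le_trans ?_ hH) hHx ι w hw hE⟩
  have hx1 : (1 : ℝ) ≤ x := by exact_mod_cast (by omega : 1 ≤ x)
  exact Real.rpow_le_rpow_of_exponent_le hx1 (by
    have := min_le_left ρ (1 / 4)
    linarith)

end Pool.Agent.Results.MP_dd84fd_nt.ThinFamiliesShortIntervals
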